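import Mathlib
import Pool.Agent.Helper30.ML.Goals

/-!
Project ML (MP_bf413e_co): MacLane families in linear form (characteristic functions mod 2).
-/

set_option autoImplicit false

namespace Pool.Agent.Helper92.ML

open scoped Classical
open Finset
open Pool.Agent.Helper30.ML
open Pool.Agent.Helper94.KC (Even2)

variable {V : Type}

/-- the characteristic function mod 2 -/
noncomputable def ch (s : Finset (Finset V)) (e : Finset V) : ZMod 2 := if e ∈ s then 1 else 0

theorem zmod2 (a : ZMod 2) : a = 0 ∨ a = 1 := by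
  revert a; decide

theorem add_self2 (a : ZMod 2) : a + a = 0 := by
  revert a; decide

theorem ch_symm (s t : Finset (Finset V)) (e : Finset V) :
    ch (symmDiff s t) e = ch s e + ch t e := by
  unfold ch
  by_cases h1 : e ∈ s <;> by_cases h2 : e ∈ t <;> simp [Finset.mem_symmDiff, h1, h2, add_self2]

theorem ch_empty (e : Finset V) : ch (∅ : Finset (Finset V)) e = 0 := by
  unfold ch
  simp

theorem ch_pos {s : Finset (Finset V)} {e : Finset V} (h : e ∈ s) : ch s e = 1 := if_pos h

theorem ch_neg {s : Finset (Finset V)} {e : Finset V} (h : e ∉ s) : ch s e = 0 := if_neg h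

theorem ch_eq_one {s : Finset (Finset V)} {e : Finset V} : ch s e = 1 ↔ e ∈ s := by
  unfold ch
  by_cases h : e ∈ s <;> simp [h]

variable [Fintype V]

/-- even sets, linear form -/
def Ev (z : Finset (Finset V)) : Prop := ∀ v : V, ∑ e : Finset V, (if v ∈ e then ch z e else 0) = 0

theorem even_iff (z : Finset (Finset V)) : Even2 z ↔ Ev z := by
  unfold Even2 Ev
  apply forall_congr'
  intro v
  rw [← ZMod.natCast_eq_zero_iff_even, Finset.natCast_card_filter]
  have h : ∑ e ∈ z, (if v ∈ e then (1 : ZMod 2) else 0) =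
      ∑ e : Finset V, (if v ∈ e then ch z e else 0) := by
    rw [← Finset.sum_filter_add_sum_filter_not (s := (univ : Finset (Finset V))) (fun e => e ∈ z)]
    have h1 : ∑ e ∈ (univ : Finset (Finset V)) with ¬ e ∈ z, (if v ∈ e then ch z e else 0) = 0 := by
      apply Finset.sum_eq_zero
      intro e he
      rw [ch_neg (Finset.mem_filter.1 he).2]
      simp
    rw [h1, add_zero]
    apply Finset.sum_congr
    · ext e; simp
    · intro e he
      rw [ch_pos (Finset.mem_filter.1 he).2]
  rw [h]

theorem ev_symm {s t : Finset (Finset V)} (hs : Ev s) (ht : Ev t) : Ev (symmDiff s t) := by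
  intro v
  have h : ∀ e : Finset V, (if v ∈ e then ch (symmDiff s t) e else 0) =
      (if v ∈ e then ch s e else 0) + (if v ∈ e then ch t e else 0) := by
    intro e
    split_ifs
    · exact ch_symm s t e
    · simp
  rw [Finset.sum_congr rfl (fun e _ => h e), Finset.sum_add_distrib, hs v, ht v, add_zero]

theorem ev_empty : Ev (∅ : Finset (Finset V)) := by
  intro v
  apply Finset.sum_eq_zero
  intro e _
  rw [ch_empty]
  simp

/-- MacLane families of sets of edges, linear form -/
structure FamE (E : Finset (Finset V)) (ι : Type) [Fintype ι] (f : ι → Finset (Finset V)) :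
    Prop where
  sub : ∀ i, f i ⊆ E
  ev : ∀ i, Ev (f i)
  two : ∀ e, (univ.filter (fun i => e ∈ f i)).card ≤ 2
  span : ∀ z ⊆ E, Ev z → ∃ a : ι → ZMod 2, ∀ e, ch z e = ∑ i, a i * ch (f i) e

/-- MacLane sets of edges -/
def MacE (E : Finset (Finset V)) : Prop :=
  ∃ (ι : Type) (_ : Fintype ι) (f : ι → Finset (Finset V)), FamE E ι f

theorem fam_fin {E : Finset (Finset V)} {ι : Type} [Fintype ι] {f : ι → Finset (Finset V)}
    (h : FamE E ι f) : FamE E (Fin (Fintype.card ι)) (fun i => f ((Fintype.equivFin ι).symm i)) where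
  sub i := h.sub _
  ev i := h.ev _
  two e := by
    have h1 : (univ.filter (fun i : Fin (Fintype.card ι) => e ∈ f ((Fintype.equivFin ι).symm i))).card
        = (univ.filter (fun i => e ∈ f i)).card := by
      refine Finset.card_equiv (Fintype.equivFin ι).symm ?_
      intro i
      simp
    rw [h1]
    exact h.two e
  span z hz hev := by
    obtain ⟨a, ha⟩ := h.span z hz hev
    refine ⟨fun i => a ((Fintype.equivFin ι).symm i), fun e => ?_⟩
    rw [ha e]
    exact (Equiv.sum_comp (Fintype.equivFin ι).symm (fun i => a i * ch (f i) e)).symm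

omit [Fintype V] in
theorem span_iff (m : ℕ) (f : Fin m → Finset (Finset V)) (z : Finset (Finset V)) :
    (∃ J : Finset (Fin m), ∀ e, e ∈ z ↔ Odd (J.filter (fun i => e ∈ f i)).card) ↔
      ∃ a : Fin m → ZMod 2, ∀ e, ch z e = ∑ i, a i * ch (f i) e := by
  have key : ∀ (J : Finset (Fin m)) (e : Finset V),
      (((J.filter (fun i => e ∈ f i)).card : ℕ) : ZMod 2) =
        ∑ i, (if i ∈ J then (1 : ZMod 2) else 0) * ch (f i) e := by
    intro J e
    rw [Finset.natCast_card_filter]
    have h1 : ∀ i, (if i ∈ J then (1 : ZMod 2) else 0) * ch (f i) e =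
        if i ∈ J then ch (f i) e else 0 := by
      intro i; split_ifs <;> simp
    rw [Finset.sum_congr rfl (fun i _ => h1 i), Finset.sum_ite_mem, Finset.univ_inter]
    rfl
  have key2 : ∀ (J : Finset (Fin m)) (e : Finset V), (e ∈ z ↔ Odd (J.filter (fun i => e ∈ f i)).card) ↔
      ch z e = ∑ i, (if i ∈ J then (1 : ZMod 2) else 0) * ch (f i) e := by
    intro J e
    rw [← key, ← ZMod.natCast_eq_one_iff_odd, ← ch_eq_one]
    rcases zmod2 (ch z e) with h1 | h1 <;>
    rcases zmod2 (((J.filter (fun i => e ∈ f i)).card : ℕ) : ZMod 2) with h2 | h2 <;>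
    rw [h1, h2] <;> decide
  constructor
  · rintro ⟨J, hJ⟩
    exact ⟨fun i => if i ∈ J then 1 else 0, fun e => (key2 J e).1 (hJ e)⟩
  · rintro ⟨a, ha⟩
    refine ⟨univ.filter (fun i => a i = 1), fun e => (key2 _ e).2 ?_⟩
    rw [ha e]
    apply Finset.sum_congr rfl
    intro i _
    congr 1
    rcases zmod2 (a i) with h | h <;> simp [h]

theorem macFam_iff (G : SimpleGraph V) (m : ℕ) (f : Fin m → Finset (Finset V)) :
    MacFam G m f ↔ FamE (eG G) (Fin m) f := by
  constructor
  · intro h
    exact ⟨h.sub, fun i => (even_iff _).1 (h.even i), h.two,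
      fun z hz hev => (span_iff m f z).1 (h.span z hz ((even_iff z).2 hev))⟩
  · intro h
    exact ⟨h.sub, fun i => (even_iff _).2 (h.ev i), h.two,
      fun z hz hev => (span_iff m f z).2 (h.span z hz ((even_iff z).1 hev))⟩

theorem mac_iff (G : SimpleGraph V) : Mac G ↔ MacE (eG G) := by
  constructor
  · rintro ⟨m, f, h⟩
    exact ⟨Fin m, inferInstance, f, (macFam_iff G m f).1 h⟩
  · rintro ⟨ι, hι, f, h⟩
    exact ⟨_, _, (macFam_iff G _ _).2 (fam_fin h)⟩

end Pool.Agent.Helper92.ML
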