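import Mathlib
import Pool.Agent.Helper92.ML.Lin

/-!
Project ML (MP_bf413e_co), packet LA: splitting a face.
-/

set_option autoImplicit false

namespace Pool.Agent.Helper92.ML

open scoped Classical
open Finset
open Pool.Agent.Helper30.ML

variable {V : Type} [Fintype V]

omit [Fintype V] in
theorem pair_ne1 {v x y : V} (hx : v ≠ x) (hy : v ≠ y) (hxy : x ≠ y) :
    ({v, x} : Finset V) ≠ {v, y} ∧ ({v, x} : Finset V) ≠ {x, y} ∧
      ({v, y} : Finset V) ≠ {x, y} := by
  refine ⟨?_, ?_, ?_⟩
  · intro h
    have h1 : x ∈ ({v, y} : Finset V) := by rw [← h]; simp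
    simp only [Finset.mem_insert, Finset.mem_singleton] at h1
    rcases h1 with h1 | h1
    · exact hx h1.symm
    · exact hxy h1
  · intro h
    have h1 : v ∈ ({x, y} : Finset V) := by rw [← h]; simp
    simp only [Finset.mem_insert, Finset.mem_singleton] at h1
    rcases h1 with h1 | h1
    · exact hx h1
    · exact hy h1
  · intro h
    have h1 : v ∈ ({x, y} : Finset V) := by rw [← h]; simp
    simp only [Finset.mem_insert, Finset.mem_singleton] at h1
    rcases h1 with h1 | h1
    · exact hx h1
    · exact hy h1

theorem tri_ev {v x y : V} (hx : v ≠ x) (hy : v ≠ y) (hxy : x ≠ y) :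
    Ev ({{v, x}, {v, y}, {x, y}} : Finset (Finset V)) := by
  intro w
  obtain ⟨n1, n2, n3⟩ := pair_ne1 hx hy hxy
  have h1 : ∀ e : Finset V, (if w ∈ e then ch ({{v, x}, {v, y}, {x, y}} : Finset (Finset V)) e
      else 0) = (if e ∈ ({{v, x}, {v, y}, {x, y}} : Finset (Finset V)) then
        (if w ∈ e then (1 : ZMod 2) else 0) else 0) := by
    intro e
    unfold ch
    split_ifs <;> rfl
  rw [Finset.sum_congr rfl (fun e _ => h1 e), Finset.sum_ite_mem, Finset.univ_inter,
    Finset.sum_insert, Finset.sum_insert, Finset.sum_singleton]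
  · simp only [Finset.mem_insert, Finset.mem_singleton]
    by_cases hwv : w = v
    · subst hwv
      simp [hx, hy, add_self2]
    · by_cases hwx : w = x
      · subst hwx
        simp [hxy, hwv, add_self2]
      · by_cases hwy : w = y
        · subst hwy
          simp [hwv, hwx, add_self2]
        · simp [hwv, hwx, hwy]
  · simp only [Finset.mem_singleton]
    exact n3
  · simp only [Finset.mem_insert, Finset.mem_singleton, not_or]
    exact ⟨n1, n2⟩

theorem eG_adE (G : SimpleGraph V) {x y : V} (hxy : x ≠ y) :
    eG (adE G x y) = insert {x, y} (eG G) := by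
  ext e
  unfold eG
  simp only [Finset.mem_filter, Finset.mem_univ, true_and, Finset.mem_insert]
  constructor
  · rintro ⟨u, v, huv, rfl⟩
    rcases huv with h | ⟨-, h | h⟩
    · exact Or.inr ⟨u, v, h, rfl⟩
    · left; rw [h.1, h.2]
    · left; rw [h.1, h.2]; exact Finset.pair_comm y x
  · rintro (rfl | ⟨u, v, h, rfl⟩)
    · exact ⟨x, y, Or.inr ⟨hxy, Or.inl ⟨rfl, rfl⟩⟩, rfl⟩
    · exact ⟨u, v, Or.inl h, rfl⟩

theorem mem_eG_ne {G : SimpleGraph V} {x y : V} (h : ({x, y} : Finset V) ∈ eG G) :
    G.Adj x y := by
  unfold eG at h
  rw [Finset.mem_filter] at h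
  obtain ⟨-, u, w, huw, he⟩ := h
  have hx : x ∈ ({u, w} : Finset V) := by rw [← he]; simp
  have hy : y ∈ ({u, w} : Finset V) := by rw [← he]; simp
  have hu : u ∈ ({x, y} : Finset V) := by rw [he]; simp
  have hw : w ∈ ({x, y} : Finset V) := by rw [he]; simp
  have hne := huw.ne
  simp only [Finset.mem_insert, Finset.mem_singleton] at hx hy hu hw
  rcases hx with rfl | rfl
  · rcases hy with rfl | rfl
    · rcases hw with h | h <;> exact absurd h.symm hne
    · exact huw
  · rcases hy with rfl | rfl
    · exact huw.symm
    · rcases hu with h | h <;> exact absurd h hne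

theorem split_face {E : Finset (Finset V)} {ι : Type} [Fintype ι] {f : ι → Finset (Finset V)}
    (hf : FamE E ι f) (i : ι) {v x y : V} (hx : v ≠ x) (hy : v ≠ y) (hxy : x ≠ y)
    (h1 : {v, x} ∈ f i) (h2 : {v, y} ∈ f i) (h3 : ({x, y} : Finset V) ∉ E) :
    MacE (insert {x, y} E) := by
  obtain ⟨n1, n2, n3⟩ := pair_ne1 hx hy hxy
  set t : Finset (Finset V) := {{v, x}, {v, y}, {x, y}} with ht
  have hvx : ({v, x} : Finset V) ∈ t := by rw [ht]; simp
  have hvy : ({v, y} : Finset V) ∈ t := by rw [ht]; simp
  have hxyt : ({x, y} : Finset V) ∈ t := by rw [ht]; simp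
  have htc : ∀ e ∈ t, e = {v, x} ∨ e = {v, y} ∨ e = {x, y} := by
    intro e he
    rw [ht] at he
    simpa using he
  have htE : t ⊆ insert {x, y} E := by
    intro e he
    rcases htc e he with rfl | rfl | rfl
    · exact Finset.mem_insert_of_mem (hf.sub _ h1)
    · exact Finset.mem_insert_of_mem (hf.sub _ h2)
    · exact Finset.mem_insert_self _ _
  have htev : Ev t := tri_ev hx hy hxy
  have hsplit : ∀ {M : Type} [AddCommMonoid M] (g : ι → M), ∑ j, g j =
      g i + ∑ j ∈ univ.erase i, g j := by
    intro M _ g
    rw [Finset.add_sum_erase univ g (Finset.mem_univ i)]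
  let f' : Option ι → Finset (Finset V) := fun o =>
    match o with
    | none => t
    | some j => if j = i then symmDiff (f i) t else f j
  have f'n : f' none = t := rfl
  have f'i : f' (some i) = symmDiff (f i) t := if_pos rfl
  have f'j : ∀ j, j ≠ i → f' (some j) = f j := fun j hj => if_neg hj
  refine ⟨Option ι, inferInstance, f', ?_, ?_, ?_, ?_⟩
  · rintro (_ | j)
    · exact htE
    · by_cases hj : j = i
      · subst hj
        rw [f'i]
        intro e he
        rw [Finset.mem_symmDiff] at he
        rcases he with he | he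
        · exact Finset.mem_insert_of_mem (hf.sub _ he.1)
        · exact htE he.1
      · rw [f'j j hj]
        exact (hf.sub j).trans (Finset.subset_insert _ _)
  · rintro (_ | j)
    · exact htev
    · by_cases hj : j = i
      · subst hj
        rw [f'i]
        exact ev_symm (hf.ev _) htev
      · rw [f'j j hj]
        exact hf.ev j
  · intro e
    have hold := hf.two e
    rw [Finset.card_filter, hsplit] at hold
    rw [Finset.card_filter, Fintype.sum_option, hsplit, f'n, f'i]
    have hrest : ∑ j ∈ univ.erase i, (if e ∈ f' (some j) then 1 else 0) =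
        ∑ j ∈ univ.erase i, (if e ∈ f j then 1 else 0) := by
      apply Finset.sum_congr rfl
      intro j hj
      rw [f'j j (Finset.ne_of_mem_erase hj)]
    rw [hrest]
    by_cases he : e ∈ t
    · rcases htc e he with rfl | rfl | rfl
      · have hs : ({v, x} : Finset V) ∉ symmDiff (f i) t := by
          rw [Finset.mem_symmDiff]
          rintro (h | h)
          · exact h.2 hvx
          · exact h.2 h1
        rw [if_pos he, if_neg hs]
        rw [if_pos h1] at hold
        omega
      · have hs : ({v, y} : Finset V) ∉ symmDiff (f i) t := by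
          rw [Finset.mem_symmDiff]
          rintro (h | h)
          · exact h.2 hvy
          · exact h.2 h2
        rw [if_pos he, if_neg hs]
        rw [if_pos h2] at hold
        omega
      · have hz : ∑ j ∈ univ.erase i, (if ({x, y} : Finset V) ∈ f j then 1 else 0) = 0 := by
          apply Finset.sum_eq_zero
          intro j _
          rw [if_neg (fun h => h3 (hf.sub j h))]
        rw [hz]
        split_ifs <;> omega
    · have hs : e ∈ symmDiff (f i) t ↔ e ∈ f i := by
        rw [Finset.mem_symmDiff]
        tauto
      rw [if_neg he]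
      simp only [hs]
      omega
  · have base : ∀ z ⊆ E, Ev z → ∃ a : Option ι → ZMod 2, ∀ e, ch z e =
        ∑ o, a o * ch (f' o) e := by
      intro z hz hev
      obtain ⟨a, ha⟩ := hf.span z hz hev
      refine ⟨fun o => match o with
        | none => a i
        | some j => a j, fun e => ?_⟩
      rw [ha e, Fintype.sum_option, hsplit, hsplit]
      show _ = a i * ch t e + (a i * ch (f' (some i)) e +
        ∑ j ∈ univ.erase i, a j * ch (f' (some j)) e)
      have hrest : ∑ j ∈ univ.erase i, a j * ch (f' (some j)) e =
          ∑ j ∈ univ.erase i, a j * ch (f j) e := by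
        apply Finset.sum_congr rfl
        intro j hj
        rw [f'j j (Finset.ne_of_mem_erase hj)]
      rw [hrest, f'i, ch_symm, mul_add]
      have h4 := add_self2 (a i * ch t e)
      calc a i * ch (f i) e + ∑ j ∈ univ.erase i, a j * ch (f j) e
          = (a i * ch t e + a i * ch t e) + (a i * ch (f i) e +
            ∑ j ∈ univ.erase i, a j * ch (f j) e) := by rw [h4, zero_add]
        _ = _ := by ring
    intro z hz hev
    by_cases hxyz : ({x, y} : Finset V) ∈ z
    · have hz' : symmDiff z t ⊆ E := by
        intro e he
        rw [Finset.mem_symmDiff] at he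
        rcases he with he | he
        · rcases Finset.mem_insert.1 (hz he.1) with h | h
          · exact absurd (h ▸ hxyt) he.2
          · exact h
        · rcases htc e he.1 with rfl | rfl | rfl
          · exact hf.sub _ h1
          · exact hf.sub _ h2
          · exact absurd hxyz he.2
      obtain ⟨a, ha⟩ := base _ hz' (ev_symm hev htev)
      refine ⟨Function.update a none (a none + 1), fun e => ?_⟩
      have h4 := ha e
      rw [ch_symm, Fintype.sum_option] at h4
      rw [Fintype.sum_option, Function.update_self]
      have hrest : ∑ j, Function.update a none (a none + 1) (some j) * ch (f' (some j)) e =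
          ∑ j, a (some j) * ch (f' (some j)) e := by
        apply Finset.sum_congr rfl
        intro j _
        rw [Function.update_of_ne (by simp)]
      rw [hrest, f'n] at *
      have h5 := add_self2 (ch t e)
      calc ch z e = ch z e + (ch t e + ch t e) := by rw [h5, add_zero]
        _ = (ch z e + ch t e) + ch t e := by ring
        _ = _ := by rw [h4]; ring
    · refine base z ?_ hev
      intro e he
      rcases Finset.mem_insert.1 (hz he) with h | h
      · exact absurd (h ▸ he) hxyz
      · exact h

theorem pLA : StmtLA := by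
  intro V _ G m f i v x y hf hxy h1 h2 h3
  rw [mac_iff, eG_adE G hxy]
  have hf' := (macFam_iff G m f).1 hf
  have hvx := (mem_eG_ne (hf'.sub _ h1)).ne
  have hvy := (mem_eG_ne (hf'.sub _ h2)).ne
  exact split_face hf' i hvx hvy hxy h1 h2 (fun h => h3 (mem_eG_ne h))

end Pool.Agent.Helper92.ML
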