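import Mathlib
import Pool.Agent.Helper92.ML.Lin

/-!
Project ML (MP_bf413e_co), packet SU: subgraphs of MacLane graphs.
-/

set_option autoImplicit false

namespace Pool.Agent.Helper92.ML

open scoped Classical
open Finset
open Pool.Agent.Helper30.ML

variable {V : Type} [Fintype V]

theorem su_step {E : Finset (Finset V)} (h : MacE E) (e₀ : Finset V) : MacE (E.erase e₀) := by
  obtain ⟨ι, hι, f, hf⟩ := h
  by_cases h0 : ∃ i, e₀ ∈ f i
  · obtain ⟨i₀, hi₀⟩ := h0
    by_cases h1 : ∃ i₁, i₁ ≠ i₀ ∧ e₀ ∈ f i₁
    · obtain ⟨i₁, hne, hi₁⟩ := h1
      have hexact : ∀ i, e₀ ∈ f i → i = i₀ ∨ i = i₁ := by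
        intro i hi
        by_contra hcon
        push Not at hcon
        have h3 : ({i₀, i₁, i} : Finset ι) ⊆ univ.filter (fun i => e₀ ∈ f i) := by
          intro j hj
          simp only [Finset.mem_insert, Finset.mem_singleton] at hj
          rw [Finset.mem_filter]
          refine ⟨Finset.mem_univ _, ?_⟩
          rcases hj with rfl | rfl | rfl
          · exact hi₀
          · exact hi₁
          · exact hi
        have h4 := Finset.card_le_card h3
        rw [Finset.card_eq_three.2 ⟨i₀, i₁, i, hne.symm, hcon.1.symm, hcon.2.symm, rfl⟩] at h4
        have := hf.two e₀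
        omega
      refine ⟨ι, hι, fun i => if i = i₀ then symmDiff (f i₀) (f i₁) else if i = i₁ then ∅ else f i,
        ?_, ?_, ?_, ?_⟩
      · intro i e he
        split_ifs at he with h2 h3
        · rw [Finset.mem_symmDiff] at he
          rw [Finset.mem_erase]
          rcases he with he | he
          · refine ⟨?_, hf.sub _ he.1⟩
            rintro rfl
            exact he.2 hi₁
          · refine ⟨?_, hf.sub _ he.1⟩
            rintro rfl
            exact he.2 hi₀
        · simp at he
        · rw [Finset.mem_erase]
          refine ⟨?_, hf.sub _ he⟩
          rintro rfl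
          rcases hexact i he with h4 | h4
          · exact h2 h4
          · exact h3 h4
      · intro i
        split_ifs with h2 h3
        · exact ev_symm (hf.ev _) (hf.ev _)
        · exact ev_empty
        · exact hf.ev i
      · intro e
        refine le_trans ?_ (hf.two e)
        refine Finset.card_le_card_of_injOn
          (fun i => if i = i₀ then (if e ∈ f i₀ then i₀ else i₁) else i) ?_ ?_
        · intro i hi
          rw [Finset.mem_coe, Finset.mem_filter] at hi
          have hi2 := hi.2
          rw [Finset.mem_coe, Finset.mem_filter]
          refine ⟨Finset.mem_univ _, ?_⟩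
          simp only
          split_ifs at hi2 ⊢ with h2 h3 h4
          · exact h3
          · rw [Finset.mem_symmDiff] at hi2
            rcases hi2 with h5 | h5
            · exact absurd h5.1 h3
            · exact h5.1
          · simp at hi2
          · exact hi2
        · intro i hi j hj hij
          rw [Finset.mem_coe, Finset.mem_filter] at hi hj
          have hi2 := hi.2
          have hj2 := hj.2
          by_cases hi3 : i = i₀
          · by_cases hj3 : j = i₀
            · rw [hi3, hj3]
            · exfalso
              simp only [if_pos hi3, if_neg hj3] at hij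
              rw [if_neg hj3] at hj2
              by_cases he : e ∈ f i₀
              · rw [if_pos he] at hij
                exact hj3 hij.symm
              · rw [if_neg he] at hij
                rw [if_pos hij.symm] at hj2
                simp at hj2
          · by_cases hj3 : j = i₀
            · exfalso
              simp only [if_neg hi3, if_pos hj3] at hij
              rw [if_neg hi3] at hi2
              by_cases he : e ∈ f i₀
              · rw [if_pos he] at hij
                exact hi3 hij
              · rw [if_neg he] at hij
                rw [if_pos hij] at hi2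
                simp at hi2
            · simp only [if_neg hi3, if_neg hj3] at hij
              exact hij
      · intro z hz hev
        obtain ⟨a, ha⟩ := hf.span z (fun e he => Finset.mem_of_mem_erase (hz he)) hev
        have hz0 : e₀ ∉ z := fun h => absurd (hz h) (Finset.notMem_erase _ _)
        have ha0 := ha e₀
        rw [ch_neg hz0] at ha0
        have hsplit : ∀ (g : ι → ZMod 2), ∑ i, g i =
            g i₀ + (g i₁ + ∑ i ∈ (univ.erase i₀).erase i₁, g i) := by
          intro g
          rw [← Finset.add_sum_erase univ g (Finset.mem_univ i₀),
            ← Finset.add_sum_erase (univ.erase i₀) g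
              (Finset.mem_erase.2 ⟨hne, Finset.mem_univ i₁⟩)]
        rw [hsplit, ch_pos hi₀, ch_pos hi₁, mul_one, mul_one] at ha0
        have hrest : ∑ i ∈ (univ.erase i₀).erase i₁, a i * ch (f i) e₀ = 0 := by
          apply Finset.sum_eq_zero
          intro i hi
          rw [Finset.mem_erase, Finset.mem_erase] at hi
          rw [ch_neg, mul_zero]
          intro h5
          rcases hexact i h5 with h6 | h6
          · exact hi.2.1 h6
          · exact hi.1 h6
        rw [hrest, add_zero] at ha0
        have haeq : a i₀ = a i₁ := by
          rcases zmod2 (a i₀) with h5 | h5 <;> rcases zmod2 (a i₁) with h6 | h6 <;>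
          rw [h5, h6] at ha0 ⊢ <;> revert ha0 <;> decide
        refine ⟨a, fun e => ?_⟩
        rw [ha e, hsplit, hsplit, if_pos rfl, if_neg hne, if_pos rfl, ch_symm, ch_empty, mul_zero,
          mul_add, haeq]
        have hrest2 : ∑ i ∈ (univ.erase i₀).erase i₁, a i * ch (f i) e =
            ∑ i ∈ (univ.erase i₀).erase i₁, a i * ch (if i = i₀ then symmDiff (f i₀) (f i₁) else
              if i = i₁ then ∅ else f i) e := by
          apply Finset.sum_congr rfl
          intro i hi
          rw [Finset.mem_erase, Finset.mem_erase] at hi
          rw [if_neg hi.2.1, if_neg hi.1]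
        rw [hrest2]
        ring
    · push Not at h1
      refine ⟨ι, hι, fun i => if i = i₀ then ∅ else f i, ?_, ?_, ?_, ?_⟩
      · intro i e he
        split_ifs at he with h2
        · simp at he
        · rw [Finset.mem_erase]
          refine ⟨?_, hf.sub _ he⟩
          rintro rfl
          exact h1 i h2 he
      · intro i
        split_ifs with h2
        · exact ev_empty
        · exact hf.ev i
      · intro e
        refine le_trans (Finset.card_le_card ?_) (hf.two e)
        intro i hi
        rw [Finset.mem_filter] at hi ⊢
        refine ⟨Finset.mem_univ _, ?_⟩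
        have hi2 := hi.2
        split_ifs at hi2 with h2
        · simp at hi2
        · exact hi2
      · intro z hz hev
        obtain ⟨a, ha⟩ := hf.span z (fun e he => Finset.mem_of_mem_erase (hz he)) hev
        have hz0 : e₀ ∉ z := fun h => absurd (hz h) (Finset.notMem_erase _ _)
        have ha0 := ha e₀
        rw [ch_neg hz0, ← Finset.add_sum_erase univ _ (Finset.mem_univ i₀), ch_pos hi₀,
          mul_one] at ha0
        have hrest : ∑ i ∈ univ.erase i₀, a i * ch (f i) e₀ = 0 := by
          apply Finset.sum_eq_zero
          intro i hi
          rw [Finset.mem_erase] at hi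
          rw [ch_neg (h1 i hi.1), mul_zero]
        rw [hrest, add_zero] at ha0
        refine ⟨a, fun e => ?_⟩
        rw [ha e]
        apply Finset.sum_congr rfl
        intro i _
        by_cases h2 : i = i₀
        · rw [h2, ← ha0]
          simp
        · rw [if_neg h2]
  · push Not at h0
    refine ⟨ι, hι, f, ?_, hf.ev, hf.two, ?_⟩
    · intro i e he
      rw [Finset.mem_erase]
      refine ⟨?_, hf.sub _ he⟩
      rintro rfl
      exact h0 i he
    · intro z hz hev
      exact hf.span z (fun e he => Finset.mem_of_mem_erase (hz he)) hev

theorem su_all {E E' : Finset (Finset V)} (h : MacE E) (hE : E' ⊆ E) : MacE E' := by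
  have h1 : ∀ D : Finset (Finset V), MacE (E \ D) := by
    intro D
    induction D using Finset.induction_on with
    | empty => rw [Finset.sdiff_empty]; exact h
    | insert a D ha ih =>
      have h2 : E \ insert a D = (E \ D).erase a := by
        ext e
        simp only [Finset.mem_sdiff, Finset.mem_insert, Finset.mem_erase]
        tauto
      rw [h2]
      exact su_step ih a
  have h2 := h1 (E \ E')
  rw [Finset.sdiff_sdiff_eq_self hE] at h2
  exact h2

theorem eG_mono {G H : SimpleGraph V} (h : H ≤ G) : eG H ⊆ eG G := by
  intro e he
  unfold eG at he ⊢
  rw [Finset.mem_filter] at he ⊢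
  obtain ⟨-, u, v, huv, rfl⟩ := he
  exact ⟨Finset.mem_univ _, u, v, h huv, rfl⟩

theorem pSU : StmtSU := by
  intro V _ G H hle hG
  rw [mac_iff] at hG ⊢
  exact su_all hG (eG_mono hle)

end Pool.Agent.Helper92.ML
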